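import Pool.Agent.H530R3.Am.Prob
import Pool.Agent.H530R3.Adv.Sparse
import Pool.Agent.H490R3.LH.T_VOT

/-!
# The nondeterministic algorithm which takes its samples from the oracle
-/

set_option autoImplicit false

namespace Pool.Agent.H530R3.Am

open Pool.Agent.NPC Pool.Agent.H628R3.RO MeasureTheory
open Pool.Agent.H530R3.Thr hiding InP inNP_of_inP
open Pool.Agent.H530R3.Adv (tabOf tabOf_bits p_tabOf)

/-- the function `l` can be computed in polynomial time, in unary -/
def Comp (l : ℕ → ℕ) : Prop := PolyTime (fun u => List.replicate (l u.length) true)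

theorem u_comp {l : ℕ → ℕ} (hl : Comp l) {α : Type} [TEnc α] {n : α → ℕ} (hn : UPoly n) :
    UPoly (fun a => l (n a)) := by
  have h1 : Poly (fun u : List Bool => List.replicate (l u.length) true) :=
    H622R2.poly_of_polyTime hl
  have h2 := UPoly.length (h1.comp (p_replicate hn true))
  refine (NPC.Poly.congr h2 fun a => ?_)
  simp

/-- the number of accepted chunks -/
noncomputable def cntV (V : List Bool → List Bool) (Q K : ℕ) (x z : List Bool) : ℕ :=
  Set.ncard {i : ℕ | i < 2 * K ∧ ∃ w : List Bool, w.length ≤ Q ∧
    V (pairBits x (pairBits (chunk Q i z) w)) = [true]}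

theorem cntV_eq {M : Alg} {A : Oracle} {V : List Bool → List Bool}
    (h : ∀ x, M.out A x = some (V x)) (q : Polynomial ℕ) (K : ℕ) (x z : List Bool) :
    cntV V (q.eval x.length) K x z = cntA M A q K x z := by
  classical
  unfold cntV cntA
  rw [← Set.ncard_coe_finset]
  congr 1
  ext i
  simp [h]

/-- the language of the strings with a sample for which most of the chunks are accepted -/
def Samp (A : Oracle) (V : List Bool → List Bool) (l : ℕ → ℕ) (q K lo hi : Polynomial ℕ) :
    Set (List Bool) :=
  {x | ∃ N, lo.eval x.length ≤ N ∧ N < hi.eval x.length ∧ ∃ z : List Bool, z.length = l N ∧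
    A (emb l N z) = true ∧ K.eval x.length < cntV V (q.eval x.length) (K.eval x.length) x z}

theorem card_range_filter (n : ℕ) (P : ℕ → Bool) :
    ((List.range n).filter P).length = Set.ncard {i : ℕ | i < n ∧ P i = true} := by
  classical
  have h : {i : ℕ | i < n ∧ P i = true} = ((Finset.range n).filter fun i => P i = true : Finset ℕ) := by
    ext i
    simp
  rw [h, Set.ncard_coe_finset]
  have h2 : ((Finset.range n).filter fun i => P i = true).val =
      (((List.range n).filter P : List ℕ) : Multiset ℕ) := by
    rw [Finset.filter_val, Finset.range_val, Multiset.range, Multiset.filter_coe]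
    congr 1
    refine List.filter_congr fun x _ => ?_
    simp
  rw [Finset.card_def, h2, Multiset.coe_card]

section

variable (V : List Bool → List Bool) (l : ℕ → ℕ) (q K lo hi : Polynomial ℕ)

/-- the input -/
def xx (u : List Bool) : List Bool := (unpair u).1
/-- the element of the oracle -/
def yy (u : List Bool) : List Bool := (unpair (unpair u).2).1
/-- the witnesses -/
def ww (u : List Bool) : List (List Bool) := tabOf (unpair (unpair u).2).2
/-- the sample -/
def zz (u : List Bool) : List Bool := (yy u).drop ((yy u).length - l (yy u).length)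

/-- the question number `i` -/
def WW (p : ℕ × List Bool) : List Bool :=
  pairBits (xx p.2) (pairBits (chunk (q.eval (xx p.2).length) p.1 (zz l p.2))
    ((ww p.2).getD p.1 []))

/-- the final test -/
def HH (p : List Bool × List Bool) : List Bool :=
  if (lo.eval (xx p.1).length ≤ (yy p.1).length ∧ (yy p.1).length < hi.eval (xx p.1).length) ∧
    ((yy p.1).take ((yy p.1).length - l (yy p.1).length) =
      List.replicate ((yy p.1).length - l (yy p.1).length) false ∧
    K.eval (xx p.1).length < ((List.range (2 * K.eval (xx p.1).length)).filter fun i =>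
      decide (((ww p.1).getD i []).length ≤ q.eval (xx p.1).length) &&
        p.2.getD i false).length) then [true] else []

theorem p_xx : Poly xx := p_un1 Poly.id
theorem p_yy : Poly yy := p_un1 (p_un2 Poly.id)
theorem p_ww : Poly ww := p_tabOf (p_un2 (p_un2 Poly.id))

theorem u_dd {l : ℕ → ℕ} (hl : Comp l) : UPoly (fun u => (yy u).length - l (yy u).length) :=
  UPoly.of_le (Poly.sub (Poly.length p_yy) (u_comp hl (UPoly.length p_yy)).toPoly)
    (UPoly.length p_yy) fun _ => Nat.sub_le _ _

theorem p_zz {l : ℕ → ℕ} (hl : Comp l) : Poly (zz l) := p_drop p_yy (u_dd hl)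

theorem p_chunk {α : Type} [TEnc α] {n : α → ℕ} {i : α → ℕ} {y : α → List Bool} (hn : UPoly n)
    (hi : Poly i) (hy : Poly y) : Poly (fun a => chunk (n a) (i a) (y a)) := by
  refine NPC.Poly.map (F := fun a j => (y a).getD (i a * n a + j) false) hn.range ?_
  exact Poly.getD (hy.comp (Poly.fst Poly.id)) (Poly.add (Poly.mul (hi.comp (Poly.fst Poly.id))
    (hn.toPoly.comp (Poly.fst Poly.id))) (Poly.snd Poly.id)) (NPC.Poly.const _)

theorem p_WW {l : ℕ → ℕ} (hl : Comp l) : Poly (WW l q) := by
  have h1 : Poly (fun p : ℕ × List Bool => xx p.2) := p_xx.comp (Poly.snd Poly.id)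
  exact H622R2.poly_pairBits h1 (H622R2.poly_pairBits
    (p_chunk ((UPoly.length h1).eval q) (Poly.fst Poly.id) ((p_zz hl).comp (Poly.snd Poly.id)))
    (Poly.getD (p_ww.comp (Poly.snd Poly.id)) (Poly.fst Poly.id) (NPC.Poly.const _)))

theorem p_HH {l : ℕ → ℕ} (hl : Comp l) : Poly (HH l q K lo hi) := by
  have h1 : Poly (fun p : List Bool × List Bool => xx p.1) := p_xx.comp (Poly.fst Poly.id)
  have h2 : Poly (fun p : List Bool × List Bool => yy p.1) := p_yy.comp (Poly.fst Poly.id)
  have h3 : UPoly (fun p : List Bool × List Bool => (yy p.1).length - l (yy p.1).length) :=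
    (u_dd hl).comp (Poly.fst Poly.id)
  have h4 : UPoly (fun p : List Bool × List Bool => (xx p.1).length) := UPoly.length h1
  have h5 : Poly (fun p : List Bool × List Bool =>
      ((List.range (2 * K.eval (xx p.1).length)).filter fun i =>
      decide (((ww p.1).getD i []).length ≤ q.eval (xx p.1).length) && p.2.getD i false)) := by
    refine Poly.filter (p := fun (p : List Bool × List Bool) i =>
      decide (((ww p.1).getD i []).length ≤ q.eval (xx p.1).length) && p.2.getD i false)
      ?_ ?_
    · have h6 : UPoly (fun p : List Bool × List Bool => (2 * K).eval (xx p.1).length) := h4.eval _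
      refine (NPC.Poly.congr h6.range fun p => ?_)
      rw [Polynomial.eval_mul, Polynomial.eval_ofNat]
    · refine Poly.and (Poly.decide_le (Poly.length (Poly.getD
        (p_ww.comp (Poly.fst (Poly.fst Poly.id))) (Poly.snd Poly.id) (NPC.Poly.const _))) ?_) ?_
      · exact (h4.eval q).toPoly.comp (Poly.fst Poly.id)
      · exact Poly.getD (Poly.snd (Poly.fst Poly.id)) (Poly.snd Poly.id) (NPC.Poly.const _)
  unfold HH
  refine Poly.ite (Poly.decide_and (Poly.decide_and ?_ ?_) (Poly.decide_and ?_ ?_))
    (NPC.Poly.const _) (NPC.Poly.const _)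
  · exact Poly.decide_le (h4.eval lo).toPoly (Poly.length h2)
  · exact Poly.decide_lt (Poly.length h2) (h4.eval hi).toPoly
  · exact Poly.decide_eq (H620R2.Gauge.R1.poly_take h2 h3) (p_replicate h3 false)
  · exact Poly.decide_lt (h4.eval K).toPoly (Poly.length h5)

/-- the whole verifier -/
noncomputable def verif (A : Oracle) (u : List Bool) : List Bool :=
  if HH l q K lo hi (u, (List.range ((2 * K).eval u.length)).map
    (fun i => decide (V (WW l q (i, u)) = [true]))) = [true] ∧ A (yy u) = true then [true] else []

theorem isFP_verif {A : Oracle} {V : List Bool → List Bool} (hV : IsFP A V) {l : ℕ → ℕ}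
    (hl : Comp l) : IsFP A (verif V l q K lo hi A) := by
  have h1 := H490R3.LH.t_VOT A V hV (2 * K) (WW l q) (p_WW q hl) (HH l q K lo hi)
    (p_HH q K lo hi hl)
  have h2 : IsFP A (fun u => [A (yy u)]) :=
    (IsFP.tt (A := A) (Q := fun u => [yy u]) (H := fun p => p.2)
      (Poly.cons p_yy (NPC.Poly.const _)) (Poly.snd Poly.id))
  have h3 := IsFP.seq (φ := fun p : List Bool × List Bool => p.1)
    (ψ := fun t : List Bool × List Bool × List Bool =>
      if t.2.1 = [true] ∧ t.2.2 = [true] then [true] else [])
    h1 h2 (Poly.fst Poly.id) (Poly.ite (Poly.decide_and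
      (Poly.decide_eq (Poly.fst (Poly.snd Poly.id)) (NPC.Poly.const _))
      (Poly.decide_eq (Poly.snd (Poly.snd Poly.id)) (NPC.Poly.const _))) (NPC.Poly.const _)
      (NPC.Poly.const _))
  refine (funext fun u => ?_ : verif V l q K lo hi A = _) ▸ h3
  unfold verif
  simp

end

theorem isNP_Samp {A : Oracle} {V : List Bool → List Bool} (hV : IsFP A V) {l : ℕ → ℕ}
    (hl : Comp l) (hl2 : ∀ N, l N ≤ N) (q K lo hi : Polynomial ℕ) :
    IsNP A (Samp A V l q K lo hi) := by
  classical
  refine ⟨verif V l q K lo hi A, 2 * hi + 1 + (2 * K * (4 * q + 2) + 1), isFP_verif q K lo hi hV hl,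
    fun x => ?_⟩
  constructor
  · rintro ⟨N, hN1, hN2, z, hz, hA, hc⟩
    set Q := q.eval x.length with hQ
    set k := K.eval x.length with hk
    have hlen := length_emb (hl2 N) hz
    let ws : List (List Bool) := (List.range (2 * k)).map fun i =>
      if h : ∃ w : List Bool, w.length ≤ Q ∧ V (pairBits x (pairBits (chunk Q i z) w)) = [true]
        then h.choose else []
    have hws : ∀ w ∈ ws, w.length ≤ Q := by
      intro w hw
      obtain ⟨i, _, rfl⟩ := List.mem_map.1 hw
      split_ifs with h
      · exact h.choose_spec.1
      · exact Nat.zero_le _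
    have hwi : ∀ i < 2 * k, ws.getD i [] = if h : ∃ w : List Bool, w.length ≤ Q ∧
        V (pairBits x (pairBits (chunk Q i z) w)) = [true] then h.choose else [] := by
      intro i hi
      have h1 : i < ws.length := by
        simp only [ws, List.length_map, List.length_range]
        exact hi
      rw [List.getD_eq_getElem _ _ h1]
      simp only [ws, List.getElem_map, List.getElem_range]
    refine ⟨pairBits (emb l N z) (bits ws), ?_, ?_⟩
    · rw [length_pairBits, bits_length, hlen]
      have h1 := sz_le_length_mul ws (4 * Q + 1) fun w hw =>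
        (sz_listBool_le w).trans (by have := hws w hw; omega)
      have h2 : ws.length = 2 * k := by simp [ws]
      simp only [Polynomial.eval_add, Polynomial.eval_mul, Polynomial.eval_ofNat,
        Polynomial.eval_one]
      rw [h2] at h1
      rw [← hQ, ← hk]
      have h3 : 2 * k * (4 * Q + 1 + 1) = 2 * k * (4 * Q + 2) := by ring
      omega
    · have e1 : xx (pairBits x (pairBits (emb l N z) (bits ws))) = x := by
        unfold xx
        rw [unpair_pairBits]
      have e2 : yy (pairBits x (pairBits (emb l N z) (bits ws))) = emb l N z := by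
        unfold yy
        rw [unpair_pairBits, unpair_pairBits]
      have e3 : ww (pairBits x (pairBits (emb l N z) (bits ws))) = ws := by
        unfold ww
        rw [unpair_pairBits, unpair_pairBits, tabOf_bits]
      have e4 : zz l (pairBits x (pairBits (emb l N z) (bits ws))) = z := by
        unfold zz
        rw [e2, hlen]
        unfold emb
        rw [List.drop_left' (by simp)]
      unfold verif
      rw [if_pos]
      refine ⟨?_, ?_⟩
      · unfold HH
        simp only [e1, e2, e3]
        rw [if_pos]
        refine ⟨⟨by rw [hlen]; exact hN1, by rw [hlen]; exact hN2⟩, ?_, ?_⟩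
        · rw [hlen]
          unfold emb
          rw [List.take_left' (by simp)]
        · rw [card_range_filter, ← hk]
          refine lt_of_lt_of_le hc (Set.ncard_le_ncard ?_ ?_)
          · rintro i ⟨hi, hw⟩
            refine ⟨hi, ?_⟩
            rw [Bool.and_eq_true, decide_eq_true_iff]
            have h5 := hwi i hi
            rw [dif_pos hw] at h5
            refine ⟨by rw [h5]; exact hw.choose_spec.1, ?_⟩
            rw [List.getD_eq_getElem]
            · rw [List.getElem_map, List.getElem_range, decide_eq_true_iff]
              unfold WW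
              simp only [e1, e3, e4]
              rw [h5]
              exact hw.choose_spec.2
            · rw [List.length_map, List.length_range]
              refine lt_of_lt_of_le hi ?_
              rw [Polynomial.eval_mul, Polynomial.eval_ofNat]
              refine Nat.mul_le_mul_left _ (eval_mono' K ?_)
              rw [length_pairBits]
              omega
          · exact (Set.finite_lt_nat (2 * k)).subset fun i hi => hi.1
      · rw [e2]
        exact hA
  · rintro ⟨c, _, hc⟩
    unfold verif at hc
    split_ifs at hc with hc2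
    obtain ⟨hc3, hA⟩ := hc2
    unfold HH at hc3
    split_ifs at hc3 with hc4
    obtain ⟨⟨h1, h2⟩, h3, h4⟩ := hc4
    have e1 : xx (pairBits x c) = x := by
      unfold xx
      rw [unpair_pairBits]
    simp only [e1] at h1 h2 h3 h4
    set y := yy (pairBits x c) with hy
    have hle := hl2 y.length
    have hzz : zz l (pairBits x c) = y.drop (y.length - l y.length) := rfl
    refine ⟨y.length, h1, h2, zz l (pairBits x c), ?_, ?_, ?_⟩
    · rw [hzz, List.length_drop]
      omega
    · unfold emb
      rw [← h3, hzz, List.take_append_drop]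
      exact hA
    · rw [card_range_filter] at h4
      refine lt_of_lt_of_le h4 (Set.ncard_le_ncard ?_ ?_)
      · rintro i ⟨hi, hw⟩
        refine ⟨hi, ?_⟩
        rw [Bool.and_eq_true, decide_eq_true_iff] at hw
        refine ⟨_, hw.1, ?_⟩
        have h5 := hw.2
        rw [List.getD_eq_getElem] at h5
        · rw [List.getElem_map, List.getElem_range, decide_eq_true_iff] at h5
          unfold WW at h5
          simp only [e1] at h5
          exact h5
        · rw [List.length_map, List.length_range]
          refine lt_of_lt_of_le hi ?_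
          rw [Polynomial.eval_mul, Polynomial.eval_ofNat]
          refine Nat.mul_le_mul_left _ (eval_mono' K ?_)
          rw [length_pairBits]
          omega
      · exact (Set.finite_lt_nat (2 * K.eval x.length)).subset fun i hi => hi.1

/-- changing a language at finitely many strings -/
theorem isNP_patch {A : Oracle} {L L' : Set (List Bool)} (h : IsNP A L') (n₀ : ℕ)
    (hL : ∀ x : List Bool, n₀ ≤ x.length → (x ∈ L ↔ x ∈ L')) : IsNP A L := by
  classical
  obtain ⟨V, r, hV, hL'⟩ := h
  let S : List (List Bool) := (((Finset.range n₀).biUnion words).filter (fun x => x ∈ L)).toList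
  have hS : ∀ x : List Bool, x.length < n₀ → (ofL S x = true ↔ x ∈ L) := by
    intro x hx
    unfold ofL
    rw [decide_eq_true_iff]
    simp only [S, Finset.mem_toList, Finset.mem_filter, Finset.mem_biUnion, Finset.mem_range,
      mem_words]
    exact ⟨fun h => h.2, fun h => ⟨⟨x.length, hx, rfl⟩, h⟩⟩
  have h1 := IsFP.seq (φ := fun p : List Bool × List Bool => p.1)
    (ψ := fun t : List Bool × List Bool × List Bool =>
      if n₀ ≤ (unpair t.1).1.length then t.2.1 else [ofL S (unpair t.1).1])
    hV hV (Poly.fst Poly.id) (Poly.ite (Poly.decide_le (NPC.Poly.const _)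
      (Poly.length (p_un1 (Poly.fst Poly.id)))) (Poly.fst (Poly.snd Poly.id))
      (Poly.cons (p_ofL (NPC.Poly.const _) (p_un1 (Poly.fst Poly.id))) (NPC.Poly.const _)))
  refine ⟨_, r, h1, fun x => ?_⟩
  simp only [unpair_pairBits]
  by_cases hx : n₀ ≤ x.length
  · simp only [hx, if_true]
    rw [hL x hx, hL' x]
  · simp only [hx, if_false]
    rw [← hS x (not_le.1 hx)]
    constructor
    · intro h
      exact ⟨[], Nat.zero_le _, by rw [h]⟩
    · rintro ⟨_, _, h⟩
      simpa using h

end Pool.Agent.H530R3.Am
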