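import Pool.Agent.H530R3.Thr.Defs

/-!
# Independent samples from one long string
-/

set_option autoImplicit false

namespace Pool.Agent.H530R3.Am

open Pool.Agent.H530R3.Thr Finset

/-- the chunk number `i` of the length `q` of the string `y` -/
def chunk (q i : ℕ) (y : List Bool) : List Bool :=
  (List.range q).map (fun j => y.getD (i * q + j) false)

theorem length_chunk (q i : ℕ) (y : List Bool) : (chunk q i y).length = q := by
  simp [chunk]

theorem chunk_zero_append {q : ℕ} {r : List Bool} (hr : r.length = q) (y : List Bool) :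
    chunk q 0 (r ++ y) = r := by
  unfold chunk
  apply List.ext_getElem
  · rw [List.length_map, List.length_range, hr]
  · intro j h1 h2
    rw [List.getElem_map, List.getElem_range, zero_mul, zero_add, List.getD_append _ _ _ _ h2,
      List.getD_eq_getElem _ _ h2]

theorem chunk_succ_append {q : ℕ} {r : List Bool} (hr : r.length = q) (i : ℕ) (y : List Bool) :
    chunk q (i + 1) (r ++ y) = chunk q i y := by
  unfold chunk
  refine List.map_congr_left fun j _ => ?_
  rw [List.getD_append_right _ _ _ _ (by rw [hr]; nlinarith)]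
  congr 1
  rw [hr]
  have : (i + 1) * q + j = q + (i * q + j) := by ring
  omega

theorem sum_words_add (a b : ℕ) (g : List Bool → ℝ) :
    ∑ y ∈ words (a + b), g y = ∑ r ∈ words a, ∑ y ∈ words b, g (r ++ y) := by
  rw [← Finset.sum_product']
  symm
  refine Finset.sum_bij (fun z _ => z.1 ++ z.2) ?_ ?_ ?_ ?_
  · rintro ⟨r, y⟩ hz
    rw [Finset.mem_product, mem_words, mem_words] at hz
    rw [mem_words, List.length_append, hz.1, hz.2]
  · rintro ⟨r, y⟩ hz ⟨r', y'⟩ hz' h
    rw [Finset.mem_product, mem_words, mem_words] at hz hz'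
    obtain ⟨h1, h2⟩ := List.append_inj h (by rw [hz.1, hz'.1])
    rw [Prod.mk.injEq]
    exact ⟨h1, h2⟩
  · intro y hy
    rw [mem_words] at hy
    refine ⟨(y.take a, y.drop a), ?_, List.take_append_drop a y⟩
    rw [Finset.mem_product, mem_words, mem_words, List.length_take, List.length_drop, hy]
    omega
  · rintro ⟨r, y⟩ _
    rfl

theorem sum_prod_chunk (q : ℕ) (f : List Bool → ℝ) : ∀ (k N : ℕ), k * q ≤ N →
    ∑ y ∈ words N, ∏ i ∈ range k, f (chunk q i y) = (∑ r ∈ words q, f r) ^ k * 2 ^ (N - k * q) := by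
  intro k
  induction k with
  | zero =>
    intro N _
    simp [card_words]
  | succ k ih =>
    intro N hN
    obtain ⟨N', rfl⟩ : ∃ N', N = q + N' := ⟨N - q, by
      have : (k + 1) * q = k * q + q := by ring
      omega⟩
    have h1 : k * q ≤ N' := by
      have : (k + 1) * q = k * q + q := by ring
      omega
    rw [sum_words_add]
    have h2 : ∀ r ∈ words q, ∑ y ∈ words N', ∏ i ∈ range (k + 1), f (chunk q i (r ++ y)) =
        f r * ((∑ r ∈ words q, f r) ^ k * 2 ^ (N' - k * q)) := by
      intro r hr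
      rw [mem_words] at hr
      rw [← ih N' h1, Finset.mul_sum]
      refine Finset.sum_congr rfl fun y _ => ?_
      rw [Finset.prod_range_succ', chunk_zero_append hr, mul_comm]
      congr 1
      refine Finset.prod_congr rfl fun i _ => ?_
      rw [chunk_succ_append hr]
    rw [Finset.sum_congr rfl h2, ← Finset.sum_mul]
    have h3 : q + N' - (k + 1) * q = N' - k * q := by
      have : (k + 1) * q = k * q + q := by ring
      omega
    rw [h3, pow_succ]
    ring

/-- few strings have many chunks in a small set -/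
theorem tail_bound (q K N : ℕ) (hN : 2 * K * q ≤ N) (R : Finset (List Bool)) (hR : R ⊆ words q)
    (hR3 : 3 * R.card ≤ 2 ^ q) :
    (((words N).filter fun y => K ≤ ((range (2 * K)).filter fun i => chunk q i y ∈ R).card).card : ℝ)
      ≤ (8 / 9) ^ K * 2 ^ N := by
  classical
  set B := (words N).filter fun y => K ≤ ((range (2 * K)).filter fun i => chunk q i y ∈ R).card
    with hB
  set f : List Bool → ℝ := fun r => if r ∈ R then 2 else 1 with hf
  have hf1 : ∀ r, 1 ≤ f r := by
    intro r
    rw [hf]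
    simp only
    split_ifs <;> norm_num
  have h1 : ∑ r ∈ words q, f r = 2 ^ q + R.card := by
    have e : ∀ r ∈ words q, f r = 1 + if r ∈ R then 1 else 0 := by
      intro r _
      rw [hf]
      simp only
      split_ifs <;> norm_num
    rw [Finset.sum_congr rfl e, Finset.sum_add_distrib, ← Finset.sum_filter]
    have e2 : (words q).filter (fun r => r ∈ R) = R := by
      ext r
      rw [Finset.mem_filter]
      exact ⟨fun h => h.2, fun h => ⟨hR h, h⟩⟩
    rw [e2]
    simp [card_words]
  have h2 : ∀ y ∈ B, (2 : ℝ) ^ K ≤ ∏ i ∈ range (2 * K), f (chunk q i y) := by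
    intro y hy
    rw [hB, Finset.mem_filter] at hy
    have e : ∏ i ∈ range (2 * K), f (chunk q i y) =
        2 ^ ((range (2 * K)).filter fun i => chunk q i y ∈ R).card := by
      rw [hf]
      simp only
      rw [Finset.prod_ite]
      simp
    rw [e]
    exact pow_le_pow_right₀ (by norm_num) hy.2
  have h3 : (B.card : ℝ) * 2 ^ K ≤ (∑ r ∈ words q, f r) ^ (2 * K) * 2 ^ (N - 2 * K * q) := by
    rw [← sum_prod_chunk q f (2 * K) N hN]
    calc (B.card : ℝ) * 2 ^ K = ∑ _y ∈ B, (2 : ℝ) ^ K := by simp
      _ ≤ ∑ y ∈ B, ∏ i ∈ range (2 * K), f (chunk q i y) := Finset.sum_le_sum h2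
      _ ≤ ∑ y ∈ words N, ∏ i ∈ range (2 * K), f (chunk q i y) := by
        refine Finset.sum_le_sum_of_subset_of_nonneg (Finset.filter_subset _ _) fun y _ _ => ?_
        exact Finset.prod_nonneg fun i _ => by linarith [hf1 (chunk q i y)]
  have h4 : ∑ r ∈ words q, f r ≤ 4 / 3 * 2 ^ q := by
    rw [h1]
    have : (3 : ℝ) * R.card ≤ 2 ^ q := by exact_mod_cast hR3
    linarith
  have h5 : (∑ r ∈ words q, f r) ^ (2 * K) * 2 ^ (N - 2 * K * q) ≤ (16 / 9) ^ K * 2 ^ N := by
    have h6 : (0 : ℝ) ≤ ∑ r ∈ words q, f r := Finset.sum_nonneg fun r _ => by linarith [hf1 r]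
    calc (∑ r ∈ words q, f r) ^ (2 * K) * 2 ^ (N - 2 * K * q) ≤
          (4 / 3 * 2 ^ q) ^ (2 * K) * 2 ^ (N - 2 * K * q) := by gcongr
      _ = (16 / 9) ^ K * 2 ^ N := by
        rw [mul_pow, ← pow_mul, mul_assoc, ← pow_add, pow_mul (4 / 3 : ℝ) 2 K]
        norm_num
        have : q * (2 * K) = 2 * K * q := by ring
        omega
  have h7 : (B.card : ℝ) * 2 ^ K ≤ ((8 / 9) ^ K * 2 ^ N) * 2 ^ K := by
    refine (h3.trans h5).trans (le_of_eq ?_)
    have : (16 / 9 : ℝ) ^ K = (8 / 9) ^ K * 2 ^ K := by
      rw [← mul_pow]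
      norm_num
    rw [this]
    ring
  exact le_of_mul_le_mul_right h7 (by positivity)

end Pool.Agent.H530R3.Am
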