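import Pool.Agent.H530R3.Am.Alg
import Pool.Agent.H530R3.Adv.Final

/-!
# Almost surely `AM = NP` relative to a sparse random oracle
-/

set_option autoImplicit false

namespace Pool.Agent.H530R3.Am

open Pool.Agent.NPC Pool.Agent.H628R3.RO MeasureTheory
open Pool.Agent.H530R3.Thr hiding InP inNP_of_inP
open scoped ENNReal

variable {p : ℕ → unitInterval}

theorem eighth (n : ℕ) : ((8 : ℝ) / 9) ^ (18 * n) ≤ (1 / 8) ^ n := by
  rw [pow_mul]
  exact pow_le_pow_left₀ (by positivity) (by norm_num) n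

/-- from summable probabilities -/
theorem ae_eventually_not {E : ℕ → Set Oracle} {g : ℕ → ℝ} (hg : Summable g)
    (h : ∀ᶠ n in Filter.atTop, pr p (E n) ≤ g n) :
    ∀ᵐ A ∂(biasedOracle p), ∃ n₀, ∀ n ≥ n₀, A ∉ E n := by
  have h1 : Summable (fun n => pr p (E n)) := by
    refine Summable.of_norm_bounded_eventually_nat hg ?_
    filter_upwards [h] with n hn
    rw [Real.norm_of_nonneg (pr_nonneg _)]
    exact hn
  have h2 : ∑' n, biasedOracle p (E n) ≠ ⊤ := by
    have h3 : ∀ n, biasedOracle p (E n) = ENNReal.ofReal (pr p (E n)) := by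
      intro n
      unfold pr
      rw [ofReal_measureReal]
    simp only [h3]
    exact Summable.tsum_ofReal_ne_top h1
  filter_upwards [ae_finite_setOfPred_mem h2] with A hA
  obtain ⟨N, hN⟩ := hA.bddAbove
  refine ⟨N + 1, fun n hn hE => ?_⟩
  have : n ≤ N := hN hE
  omega

theorem eval_comp_inLen (qb q : Polynomial ℕ) (n : ℕ) :
    (qb.comp (2 * Polynomial.X + 1 + (2 * q + 1 + q))).eval n = qb.eval (inLen q n) := by
  unfold inLen
  simp only [Polynomial.eval_comp, Polynomial.eval_add, Polynomial.eval_mul, Polynomial.eval_X,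
    Polynomial.eval_ofNat, Polynomial.eval_one]

theorem ae_good {l : ℕ → ℕ} (hl2 : ∀ N, l N ≤ N) (G P W : Polynomial ℕ)
    (hG : ∀ N, N ≤ G.eval (l N)) (hP : ∀ N, 2 ^ l N * (p N : ℝ) ≤ P.eval N)
    (hW : Summable fun n : ℕ => Real.exp (-∑ N ∈ Finset.Ico n (W.eval n), 2 ^ l N * (p N : ℝ)))
    (M : Alg) (q : Polynomial ℕ) :
    ∃ K lo hi : Polynomial ℕ, ∀ᵐ A ∂(biasedOracle p), ∃ n₀, ∀ n ≥ n₀,
      (∀ x ∈ words n, ∀ N ∈ Finset.Ico (lo.eval n) (hi.eval n), ∀ z ∈ words (l N),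
        A (emb l N z) = true → A ∉ badXY M q (K.eval n) x z) ∧
      ∃ N ∈ Finset.Ico (lo.eval n) (hi.eval n), ∃ z ∈ words (l N), A (emb l N z) = true := by
  classical
  obtain ⟨qb, hqb⟩ := badXY_loc M
  set K : Polynomial ℕ := 18 * Polynomial.X with hK
  have hKe : ∀ n, K.eval n = 18 * n := by
    intro n
    simp [hK]
  set lo : Polynomial ℕ := G.comp (2 * K * q) + qb.comp (2 * Polynomial.X + 1 + (2 * q + 1 + q)) +
    Polynomial.X + 1 with hlo
  have hloe : ∀ n, lo.eval n = G.eval (2 * K.eval n * q.eval n) + qb.eval (inLen q n) + n + 1 := by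
    intro n
    rw [hlo]
    simp only [Polynomial.eval_add, eval_comp_inLen, Polynomial.eval_X, Polynomial.eval_one]
    simp only [Polynomial.eval_comp, Polynomial.eval_mul, Polynomial.eval_ofNat]
  set hi : Polynomial ℕ := W.comp lo with hhi
  have hhie : ∀ n, hi.eval n = W.eval (lo.eval n) := by
    intro n
    rw [hhi, Polynomial.eval_comp]
  refine ⟨K, lo, hi, ?_⟩
  have hloinj : Function.Injective (fun n => lo.eval n) := by
    refine (strictMono_nat_of_lt_succ fun n => ?_).injective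
    have h1 : G.eval (2 * K.eval n * q.eval n) ≤ G.eval (2 * K.eval (n + 1) * q.eval (n + 1)) :=
      eval_mono' G (Nat.mul_le_mul (Nat.mul_le_mul_left _ (eval_mono' K (Nat.le_succ n)))
        (eval_mono' q (Nat.le_succ n)))
    have h2 : inLen q n ≤ inLen q (n + 1) := by
      unfold inLen
      have : q.eval n ≤ q.eval (n + 1) := eval_mono' q (Nat.le_succ n)
      omega
    have h3 := eval_mono' qb h2
    simp only [hloe]
    omega
  have hbig : ∀ n N, lo.eval n ≤ N → 2 * K.eval n * q.eval n ≤ l N ∧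
      qb.eval (inLen q n) < N := by
    intro n N hN
    rw [hloe] at hN
    refine ⟨?_, by omega⟩
    by_contra hcon
    push Not at hcon
    have h1 := hG N
    have h2 := eval_mono' G hcon.le
    omega
  -- no bad samples
  have hA1 : ∀ᵐ A ∂(biasedOracle p), ∃ n₀, ∀ n ≥ n₀, A ∉ {A : Oracle |
      ∃ N ∈ Finset.Ico (lo.eval n) (hi.eval n), A ∈ {A : Oracle | ∃ x ∈ words n,
        ∃ z ∈ words (l N), A (emb l N z) = true ∧ A ∈ badXY M q (K.eval n) x z}} := by
    refine ae_eventually_not (g := fun n => (1 / 2) ^ n)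
      (summable_geometric_of_lt_one (by norm_num) (by norm_num)) ?_
    obtain ⟨n₁, hn₁⟩ := C2.poly_le (hi * P.comp hi) 1
    filter_upwards [Filter.eventually_ge_atTop n₁] with n hn
    have h1 := hn₁ n hn
    rw [one_mul, Polynomial.eval_mul, Polynomial.eval_comp (p := P)] at h1
    have h1' : ((hi.eval n : ℕ) : ℝ) * ((P.eval (hi.eval n) : ℕ) : ℝ) ≤ 2 ^ n := by
      exact_mod_cast h1
    calc pr p {A : Oracle | ∃ N ∈ Finset.Ico (lo.eval n) (hi.eval n), A ∈ {A : Oracle |
          ∃ x ∈ words n, ∃ z ∈ words (l N), A (emb l N z) = true ∧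
            A ∈ badXY M q (K.eval n) x z}} ≤
          ∑ N ∈ Finset.Ico (lo.eval n) (hi.eval n), pr p {A : Oracle |
          ∃ x ∈ words n, ∃ z ∈ words (l N), A (emb l N z) = true ∧
            A ∈ badXY M q (K.eval n) x z} := by
          refine le_trans (pr_mono ?_) (measureReal_biUnion_finset_le _ _)
          rintro A ⟨N, hN, hA⟩
          simp only [Set.mem_iUnion]
          exact ⟨N, hN, hA⟩
      _ ≤ ∑ _N ∈ Finset.Ico (lo.eval n) (hi.eval n),
          2 ^ n * (((P.eval (hi.eval n) : ℕ) : ℝ) * (1 / 8) ^ n) := by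
          refine Finset.sum_le_sum fun N hN => ?_
          rw [Finset.mem_Ico] at hN
          obtain ⟨h2, h3⟩ := hbig n N hN.1
          refine (prob_bad M qb hqb l hl2 q (K.eval n) n N h2 h3).trans ?_
          refine mul_le_mul_of_nonneg_left ?_ (by positivity)
          refine mul_le_mul ((hP N).trans ?_) ?_ (by positivity) (by positivity)
          · exact_mod_cast eval_mono' P hN.2.le
          · rw [hKe]
            exact eighth n
      _ ≤ ((hi.eval n : ℕ) : ℝ) * (2 ^ n * (((P.eval (hi.eval n) : ℕ) : ℝ) * (1 / 8) ^ n)) := by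
          rw [Finset.sum_const, nsmul_eq_mul, Nat.card_Ico]
          refine mul_le_mul_of_nonneg_right ?_ (by positivity)
          exact_mod_cast Nat.sub_le _ _
      _ = (((hi.eval n : ℕ) : ℝ) * ((P.eval (hi.eval n) : ℕ) : ℝ)) * (2 ^ n * (1 / 8) ^ n) := by
          ring
      _ ≤ 2 ^ n * (2 ^ n * (1 / 8) ^ n) := mul_le_mul_of_nonneg_right h1' (by positivity)
      _ = (1 / 2) ^ n := by
          rw [← mul_pow, ← mul_pow]
          norm_num
  have hA2 : ∀ᵐ A ∂(biasedOracle p), ∃ n₀, ∀ n ≥ n₀, A ∉ {A : Oracle |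
      ∀ N ∈ Finset.Ico (lo.eval n) (hi.eval n), ∀ z ∈ words (l N), A (emb l N z) = false} := by
    refine ae_eventually_not (hW.comp_injective hloinj) (Filter.Eventually.of_forall fun n => ?_)
    simp only [Function.comp_def]
    rw [← hhie]
    exact prob_none l hl2 _ _
  filter_upwards [hA1, hA2] with A h1 h2
  obtain ⟨n₁, h1⟩ := h1
  obtain ⟨n₂, h2⟩ := h2
  refine ⟨max n₁ n₂, fun n hn => ⟨fun x hx N hN z hz hA hbad => ?_, ?_⟩⟩
  · exact h1 n ((le_max_left _ _).trans hn) ⟨N, hN, x, hx, z, hz, hA, hbad⟩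
  · have h3 := h2 n ((le_max_right _ _).trans hn)
    simp only [not_forall] at h3
    obtain ⟨N, hN, z, hz, h4⟩ := h3
    exact ⟨N, hN, z, hz, by simpa using h4⟩

/-- almost surely `AM` is contained in `NP` -/
theorem ae_am {l : ℕ → ℕ} (hl : Comp l) (hl2 : ∀ N, l N ≤ N) (G P W : Polynomial ℕ)
    (hG : ∀ N, N ≤ G.eval (l N)) (hP : ∀ N, 2 ^ l N * (p N : ℝ) ≤ P.eval N)
    (hW : Summable fun n : ℕ => Real.exp (-∑ N ∈ Finset.Ico n (W.eval n), 2 ^ l N * (p N : ℝ))) :
    ∀ᵐ A ∂(biasedOracle p), ∀ L : Set (List Bool), IsAM A L → IsNP A L := by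
  classical
  have hc : Countable Alg := Alg.countable
  have hp : Countable (Polynomial ℕ) := countable_polynomial
  choose K lo hi h using fun M : Alg => fun q : Polynomial ℕ => ae_good (p := p) hl2 G P W hG hP hW M q
  have h1 : ∀ᵐ A ∂(biasedOracle p), ∀ (M : Alg) (q : Polynomial ℕ), ∃ n₀, ∀ n ≥ n₀,
      (∀ x ∈ words n, ∀ N ∈ Finset.Ico ((lo M q).eval n) ((hi M q).eval n), ∀ z ∈ words (l N),
        A (emb l N z) = true → A ∉ badXY M q ((K M q).eval n) x z) ∧
      ∃ N ∈ Finset.Ico ((lo M q).eval n) ((hi M q).eval n), ∃ z ∈ words (l N),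
        A (emb l N z) = true := by
    rw [ae_all_iff]
    intro M
    rw [ae_all_iff]
    intro q
    exact h M q
  filter_upwards [h1] with A hA L hL
  obtain ⟨V, q, hV, hL⟩ := hL
  obtain ⟨M, hM⟩ := hV
  obtain ⟨n₀, hn₀⟩ := hA M q
  refine isNP_patch (isNP_Samp ⟨M, hM⟩ hl hl2 q (K M q) (lo M q) (hi M q)) n₀ fun x hx => ?_
  obtain ⟨hgood, N, hN, z, hz, hAz⟩ := hn₀ x.length hx
  have e : accAM V (q.eval x.length) x = accM M A (q.eval x.length) x := by
    unfold accAM accM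
    simp [hM]
  obtain ⟨h3, h4⟩ := hL x
  rw [e] at h3 h4
  constructor
  · intro hxL
    have h5 := hgood x (mem_words.2 rfl) N hN z hz hAz
    rw [Finset.mem_Ico] at hN
    refine ⟨N, hN.1, hN.2, z, mem_words.1 hz, hAz, ?_⟩
    rw [cntV_eq hM]
    by_contra hcon
    exact h5 (Or.inl ⟨h3 hxL, not_lt.1 hcon⟩)
  · rintro ⟨N', hN1, hN2, z', hz', hAz', hc'⟩
    by_contra hxL
    rw [cntV_eq hM] at hc'
    exact hgood x (mem_words.2 rfl) N' (Finset.mem_Ico.2 ⟨hN1, hN2⟩) z' (mem_words.2 hz') hAz'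
      (Or.inr ⟨h4 hxL, hc'⟩)

/-- `BPP` is closed under complements -/
theorem IsBPP.compl {A : Oracle} {L : Set (List Bool)} (h : IsBPP A L) : IsBPP A Lᶜ := by
  obtain ⟨V, q, hV, h⟩ := h
  have h2 : Poly (fun y : List Bool => if y = [true] then ([] : List Bool) else [true]) :=
    Poly.ite (Poly.decide_eq Poly.id (NPC.Poly.const _)) (NPC.Poly.const _) (NPC.Poly.const _)
  refine ⟨fun z => if V z = [true] then [] else [true], q, IsFP.comp (IsFP.of_poly h2) hV,
    fun x => ?_⟩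
  have e : accBPP (fun z => if V z = [true] then [] else [true]) (q.eval x.length) x +
      accBPP V (q.eval x.length) x = 2 ^ q.eval x.length := by
    unfold accBPP
    rw [← ncard_words (q.eval x.length)]
    have f1 : {r : List Bool | r.length = q.eval x.length ∧
        (fun z => if V z = [true] then [] else [true]) (pairBits x r) = [true]}.Finite :=
      (List.finite_length_eq Bool (q.eval x.length)).subset fun r hr => hr.1
    have f2 : {r : List Bool | r.length = q.eval x.length ∧ V (pairBits x r) = [true]}.Finite :=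
      (List.finite_length_eq Bool (q.eval x.length)).subset fun r hr => hr.1
    rw [← Set.ncard_union_eq ?_ f1 f2]
    · congr 1
      ext r
      simp only [Set.mem_union, Set.mem_ofPred_eq]
      constructor
      · rintro (⟨h3, _⟩ | ⟨h3, _⟩) <;> exact h3
      · intro h3
        by_cases h4 : V (pairBits x r) = [true]
        · exact Or.inr ⟨h3, h4⟩
        · exact Or.inl ⟨h3, by simp [h4]⟩
    · rw [Set.disjoint_left]
      rintro r ⟨_, h3⟩ ⟨_, h4⟩
      simp [h4] at h3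
  obtain ⟨h3, h4⟩ := h x
  constructor
  · intro hx
    have := h4 hx
    omega
  · intro hx
    have := h3 (not_not.1 hx)
    omega

theorem IsBPP.np {A : Oracle} {L : Set (List Bool)} (h : IsBPP A L)
    (hA : ∀ L : Set (List Bool), IsAM A L → IsNP A L) : IsNP A L ∧ IsNP A Lᶜ := by
  refine ⟨hA _ ?_, hA _ (IsBPP.compl_isAM h)⟩
  have h1 := IsBPP.compl_isAM (IsBPP.compl h)
  rwa [compl_compl] at h1

/-- the sum of the densities is infinite -/
theorem not_summable_of_window {u : ℕ → ℝ} (hu : ∀ n, 0 ≤ u n) (W : ℕ → ℕ)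
    (hW : Summable fun n : ℕ => Real.exp (-∑ N ∈ Finset.Ico n (W n), u N)) : ¬ Summable u := by
  intro h
  have h1 : Filter.Tendsto (fun n : ℕ => Real.exp (-∑ N ∈ Finset.Ico n (W n), u N)) Filter.atTop
    (nhds 0) := hW.tendsto_atTop_zero
  have h2 : ∀ n, Real.exp (-∑' k, u k) ≤ Real.exp (-∑ N ∈ Finset.Ico n (W n), u N) := by
    intro n
    refine Real.exp_le_exp.2 (neg_le_neg ?_)
    exact h.sum_le_tsum _ fun i _ => hu i
  have h3 := ge_of_tendsto' h1 h2
  exact absurd h3 (not_le.2 (Real.exp_pos _))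

/-- the densities are small -/
theorem small {l : ℕ → ℕ} (G P : Polynomial ℕ) (hG : ∀ N, N ≤ G.eval (l N))
    (hP : ∀ N, 2 ^ l N * (p N : ℝ) ≤ P.eval N) : ∀ᶠ N in Filter.atTop, (p N : ℝ) ≤ 1 / 2 := by
  obtain ⟨n₁, hn₁⟩ := C2.poly_le (P.comp G) 2
  filter_upwards [Filter.eventually_gt_atTop (G.eval n₁)] with N hN
  have h1 : n₁ ≤ l N := by
    by_contra hcon
    push Not at hcon
    have h1 := hG N
    have h2 := eval_mono' G hcon.le
    omega
  have h2 := hn₁ _ h1
  rw [Polynomial.eval_comp] at h2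
  have h3 : P.eval N ≤ P.eval (G.eval (l N)) := eval_mono' P (hG N)
  have h4 : 2 * ((P.eval N : ℕ) : ℝ) ≤ 2 ^ l N := by
    have h5 : 2 * P.eval N ≤ 2 ^ l N := by omega
    exact_mod_cast h5
  have h5 := hP N
  have h6 : (0 : ℝ) < 2 ^ l N := by positivity
  by_contra hcon
  push Not at hcon
  nlinarith

/-- the main theorem -/
theorem main {l : ℕ → ℕ} (hl : Comp l) (hl2 : ∀ N, l N ≤ N) (G P W : Polynomial ℕ)
    (hG : ∀ N, N ≤ G.eval (l N)) (hP : ∀ N, 2 ^ l N * (p N : ℝ) ≤ P.eval N)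
    (hW : Summable fun n : ℕ => Real.exp (-∑ N ∈ Finset.Ico n (W.eval n), 2 ^ l N * (p N : ℝ))) :
    ∀ᵐ A ∂(biasedOracle p), (∀ L : Set (List Bool), IsAM A L ↔ IsNP A L) ∧
      (∀ L : Set (List Bool), IsBPP A L → IsNP A L ∧ IsNP A Lᶜ) ∧
      ∃ L : Set (List Bool), IsNP A L ∧ ¬ IsNP A Lᶜ ∧ ¬ IsAM A Lᶜ ∧ ¬ IsBPP A L := by
  have hdiv : ¬ Summable (lam p) := by
    intro h
    refine not_summable_of_window (u := fun N => 2 ^ l N * (p N : ℝ))
      (fun N => mul_nonneg (by positivity) (p N).2.1) _ hW ?_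
    refine Summable.of_norm_bounded_eventually_nat h ?_
    filter_upwards [small G P hG hP] with N hN
    rw [Real.norm_of_nonneg (mul_nonneg (by positivity) (p N).2.1)]
    unfold lam
    rw [min_eq_left (by linarith)]
    exact mul_le_mul_of_nonneg_right (pow_le_pow_right₀ (by norm_num) (hl2 N)) (p N).2.1
  filter_upwards [ae_am hl hl2 G P W hG hP hW, divergent p hdiv] with A h1 h2
  obtain ⟨L, h3, h4, h5, h6, _⟩ := h2
  exact ⟨fun L => ⟨h1 L, IsNP.isAM⟩, fun L hL => IsBPP.np hL h1, L, h3, h5, h4, h6⟩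

/-- the case of the density `2 ^ (- l n)` -/
theorem main_pow {l : ℕ → ℕ} (hl : Comp l) (hl2 : ∀ N, l N ≤ N) (G : Polynomial ℕ)
    (hG : ∀ N, N ≤ G.eval (l N)) (hp : ∀ N, (p N : ℝ) = (1 / 2) ^ l N) :
    ∀ᵐ A ∂(biasedOracle p), (∀ L : Set (List Bool), IsAM A L ↔ IsNP A L) ∧
      (∀ L : Set (List Bool), IsBPP A L → IsNP A L ∧ IsNP A Lᶜ) ∧
      ∃ L : Set (List Bool), IsNP A L ∧ ¬ IsNP A Lᶜ ∧ ¬ IsAM A Lᶜ ∧ ¬ IsBPP A L := by
  have h1 : ∀ N, 2 ^ l N * (p N : ℝ) = 1 := by
    intro N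
    rw [hp, ← mul_pow]
    norm_num
  refine main hl hl2 G 1 (3 * Polynomial.X) hG (fun N => by rw [h1]; simp) ?_
  simp only [h1]
  refine Summable.of_nonneg_of_le (fun n => (Real.exp_pos _).le) (fun n => ?_)
    (summable_geometric_of_lt_one (r := Real.exp (-1)) (Real.exp_pos _).le
      (by rw [Real.exp_lt_one_iff]; norm_num))
  rw [Finset.sum_const, Nat.card_Ico, nsmul_eq_mul, ← Real.exp_nat_mul]
  refine Real.exp_le_exp.2 ?_
  have h2 : (3 * Polynomial.X : Polynomial ℕ).eval n - n = 2 * n := by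
    simp only [Polynomial.eval_mul, Polynomial.eval_ofNat, Polynomial.eval_X]
    omega
  rw [h2]
  push_cast
  have : (0 : ℝ) ≤ n := Nat.cast_nonneg n
  linarith

end Pool.Agent.H530R3.Am
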