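import Pool.Agent.H530R3.Am.Chunk
import Pool.Agent.H530R3.Thr.Final

/-!
# The probability of a bad sample in the oracle
-/

set_option autoImplicit false

namespace Pool.Agent.H530R3.Am

open Pool.Agent.NPC Pool.Agent.H628R3.RO MeasureTheory
open Pool.Agent.H530R3.Thr hiding InP inNP_of_inP

open Classical in
/-- the number of the chunks of `y` for which there is an accepted witness -/
noncomputable def cntA (M : Alg) (A : Oracle) (q : Polynomial ℕ) (K : ℕ) (x y : List Bool) : ℕ :=
  ((Finset.range (2 * K)).filter fun i => ∃ w : List Bool, w.length ≤ q.eval x.length ∧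
    M.out A (pairBits x (pairBits (chunk (q.eval x.length) i y) w)) = some [true]).card

/-- the sample `y` gives the wrong answer -/
def badXY (M : Alg) (q : Polynomial ℕ) (K : ℕ) (x y : List Bool) : Set Oracle :=
  {A | (2 * 2 ^ q.eval x.length ≤ 3 * accM M A (q.eval x.length) x ∧ cntA M A q K x y ≤ K) ∨
    (3 * accM M A (q.eval x.length) x ≤ 2 ^ q.eval x.length ∧ K < cntA M A q K x y)}

open Classical in
theorem card_bad (M : Alg) (q : Polynomial ℕ) (K : ℕ) (x : List Bool) (N : ℕ)
    (hN : 2 * K * q.eval x.length ≤ N) (A : Oracle) :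
    (((words N).filter fun y => A ∈ badXY M q K x y).card : ℝ) ≤ (8 / 9) ^ K * 2 ^ N := by
  set Q := q.eval x.length with hQ
  set R := (words Q).filter fun r => ∃ w : List Bool, w.length ≤ Q ∧
      M.out A (pairBits x (pairBits r w)) = some [true] with hR
  have hRc : accM M A Q x = R.card := accM_eq M A Q x
  have hmem : ∀ (i : ℕ) (y : List Bool), chunk Q i y ∈ R ↔ ∃ w : List Bool, w.length ≤ Q ∧
      M.out A (pairBits x (pairBits (chunk Q i y) w)) = some [true] := by
    intro i y
    rw [hR, Finset.mem_filter, mem_words]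
    exact and_iff_right (length_chunk Q i y)
  have hcnt : ∀ y, cntA M A q K x y = ((Finset.range (2 * K)).filter fun i => chunk Q i y ∈ R).card := by
    intro y
    unfold cntA
    congr 1
    exact Finset.filter_congr fun i _ => (hmem i y).symm
  have hpos : 0 < 2 ^ Q := by positivity
  have hcR : R.card ≤ 2 ^ Q := by
    rw [← card_words Q]
    exact Finset.card_filter_le _ _
  by_cases h1 : 3 * R.card ≤ 2 ^ Q
  · refine le_trans ?_ (tail_bound Q K N hN R (Finset.filter_subset _ _) h1)
    have : ((words N).filter fun y => A ∈ badXY M q K x y).card ≤ ((words N).filter fun y =>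
        K ≤ ((Finset.range (2 * K)).filter fun i => chunk Q i y ∈ R).card).card := by
      refine Finset.card_le_card fun y hy => ?_
      rw [Finset.mem_filter] at hy ⊢
      refine ⟨hy.1, ?_⟩
      rcases hy.2 with ⟨h2, _⟩ | ⟨_, h3⟩
      · have h2' : 2 * 2 ^ Q ≤ 3 * accM M A Q x := h2
        rw [hRc] at h2'
        omega
      · rw [hcnt] at h3
        exact h3.le
    exact_mod_cast this
  by_cases h2 : 2 * 2 ^ Q ≤ 3 * R.card
  · refine le_trans ?_ (tail_bound Q K N hN (words Q \ R) Finset.sdiff_subset ?_)
    · have : ((words N).filter fun y => A ∈ badXY M q K x y).card ≤ ((words N).filter fun y =>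
          K ≤ ((Finset.range (2 * K)).filter fun i => chunk Q i y ∈ words Q \ R).card).card := by
        refine Finset.card_le_card fun y hy => ?_
        rw [Finset.mem_filter] at hy ⊢
        refine ⟨hy.1, ?_⟩
        rcases hy.2 with ⟨_, h3⟩ | ⟨h3, _⟩
        · rw [hcnt] at h3
          have h4 := Finset.card_filter_add_card_filter_not (s := Finset.range (2 * K))
            (fun i => chunk Q i y ∈ R)
          rw [Finset.card_range] at h4
          have h5 : ((Finset.range (2 * K)).filter fun i => chunk Q i y ∈ words Q \ R) =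
              (Finset.range (2 * K)).filter fun i => ¬ chunk Q i y ∈ R := by
            refine Finset.filter_congr fun i _ => ?_
            rw [Finset.mem_sdiff, mem_words]
            exact and_iff_right (length_chunk Q i y)
          rw [h5]
          omega
        · have h3' : 3 * accM M A Q x ≤ 2 ^ Q := h3
          rw [hRc] at h3'
          omega
      exact_mod_cast this
    · have h3 : (words Q \ R).card = 2 ^ Q - R.card := by
        rw [Finset.card_sdiff_of_subset (Finset.filter_subset _ _), card_words]
      rw [h3]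
      omega
  · have h3 : ((words N).filter fun y => A ∈ badXY M q K x y) = ∅ := by
      refine Finset.filter_eq_empty_iff.2 fun y _ hy => ?_
      rcases hy with ⟨h3, _⟩ | ⟨h3, _⟩
      · have h3' : 2 * 2 ^ Q ≤ 3 * accM M A Q x := h3
        rw [hRc] at h3'
        exact h2 h3'
      · have h3' : 3 * accM M A Q x ≤ 2 ^ Q := h3
        rw [hRc] at h3'
        exact h1 h3'
    rw [h3]
    simp only [Finset.card_empty, Nat.cast_zero]
    positivity

theorem badXY_loc (M : Alg) : ∃ qb : Polynomial ℕ, ∀ (q : Polynomial ℕ) (K : ℕ)
    (x y : List Bool), Loc {z | z.length ≤ qb.eval (inLen q x.length)} (badXY M q K x y) := by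
  classical
  obtain ⟨qa, hqa⟩ := accM_congr M
  obtain ⟨qb, hqb⟩ := M.out_local
  refine ⟨qa + qb, fun q K x y A A' h => ?_⟩
  have h1 : accM M A (q.eval x.length) x = accM M A' (q.eval x.length) x :=
    hqa q x A A' fun z hz => h z (by
      simp only [Set.mem_ofPred_eq, Polynomial.eval_add]
      omega)
  have h2 : cntA M A q K x y = cntA M A' q K x y := by
    unfold cntA
    congr 1
    refine Finset.filter_congr fun i _ => exists_congr fun w => and_congr_right fun hw => ?_
    obtain ⟨Q, _, h2, h3⟩ := hqb A
      (pairBits x (pairBits (chunk (q.eval x.length) i y) w))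
    rw [h3 A' fun z hz => (h z ?_).symm]
    have h4 := (h2 z hz).trans (eval_mono' qb (length_in_le (length_chunk _ _ _) hw))
    simp only [Set.mem_ofPred_eq, Polynomial.eval_add]
    omega
  unfold badXY
  simp only [Set.mem_ofPred_eq, h1, h2]

variable {p : ℕ → unitInterval}

open Classical in
theorem sum_pr_le {ι : Type*} (T : Finset ι) (E : ι → Set Oracle)
    (hE : ∀ i ∈ T, MeasurableSet (E i)) (c : ℝ)
    (h : ∀ A, ((T.filter fun i => A ∈ E i).card : ℝ) ≤ c) : ∑ i ∈ T, pr p (E i) ≤ c := by
  have e2 : ∫ A, ∑ i ∈ T, (E i).indicator (fun _ => (1 : ℝ)) A ∂(biasedOracle p) =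
      ∑ i ∈ T, pr p (E i) := by
    rw [integral_finsetSum]
    · refine Finset.sum_congr rfl fun i hi => ?_
      rw [integral_indicator_const _ (hE i hi)]
      unfold pr
      rw [smul_eq_mul, mul_one]
    · intro i hi
      exact (integrable_const _).indicator (hE i hi)
  rw [← e2]
  calc ∫ A, ∑ i ∈ T, (E i).indicator (fun _ => (1 : ℝ)) A ∂(biasedOracle p) ≤
        ∫ _A, c ∂(biasedOracle p) := by
        refine integral_mono (integrable_finsetSum _ fun i hi =>
          (integrable_const _).indicator (hE i hi)) (integrable_const _) fun A => ?_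
        refine le_trans (le_of_eq ?_) (h A)
        rw [Finset.card_filter]
        push_cast
        refine Finset.sum_congr rfl fun i _ => ?_
        rw [Set.indicator_apply]
    _ = c := by simp

theorem pr_one (y : List Bool) : pr p {A : Oracle | A y = true} = p y.length := by
  have h1 : {A : Oracle | A y = true} = Full {y} true := by
    ext A
    simp [Full]
  rw [h1, pr_full (n := y.length) (by simp)]
  simp [qq]

/-- the string `z` with `N - l N` zeros in front of it -/
def emb (l : ℕ → ℕ) (N : ℕ) (z : List Bool) : List Bool := List.replicate (N - l N) false ++ z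

theorem length_emb {l : ℕ → ℕ} {N : ℕ} (hl : l N ≤ N) {z : List Bool} (hz : z.length = l N) :
    (emb l N z).length = N := by
  unfold emb
  rw [List.length_append, List.length_replicate, hz]
  omega

theorem emb_inj {l : ℕ → ℕ} {N : ℕ} {z z' : List Bool} (h : emb l N z = emb l N z') : z = z' :=
  List.append_cancel_left h

/-- the elements of the oracle of length `N` are good samples -/
theorem prob_bad (M : Alg) (qb : Polynomial ℕ) (hqb : ∀ (q : Polynomial ℕ) (K : ℕ)
    (x y : List Bool), Loc {z | z.length ≤ qb.eval (inLen q x.length)} (badXY M q K x y))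
    (l : ℕ → ℕ) (hl : ∀ N, l N ≤ N) (q : Polynomial ℕ) (K n N : ℕ) (hN : 2 * K * q.eval n ≤ l N)
    (hN2 : qb.eval (inLen q n) < N) :
    pr p {A | ∃ x ∈ words n, ∃ z ∈ words (l N), A (emb l N z) = true ∧ A ∈ badXY M q K x z} ≤
      2 ^ n * (2 ^ l N * (p N : ℝ) * (8 / 9) ^ K) := by
  classical
  have hsub : {A | ∃ x ∈ words n, ∃ z ∈ words (l N), A (emb l N z) = true ∧
      A ∈ badXY M q K x z} ⊆
      ⋃ x ∈ words n, ⋃ z ∈ words (l N), ({A : Oracle | A (emb l N z) = true} ∩
        badXY M q K x z) := by
    rintro A ⟨x, hx, y, hy, h1, h2⟩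
    simp only [Set.mem_iUnion]
    exact ⟨x, hx, y, hy, h1, h2⟩
  have hx : ∀ x ∈ words n, pr p (⋃ z ∈ words (l N), ({A : Oracle | A (emb l N z) = true} ∩
      badXY M q K x z)) ≤ 2 ^ l N * (p N : ℝ) * (8 / 9) ^ K := by
    intro x hx
    rw [mem_words] at hx
    have hfin : {z : List Bool | z.length ≤ qb.eval (inLen q x.length)}.Finite :=
      List.finite_length_le Bool _
    calc pr p (⋃ z ∈ words (l N), ({A : Oracle | A (emb l N z) = true} ∩ badXY M q K x z)) ≤
          ∑ z ∈ words (l N), pr p ({A : Oracle | A (emb l N z) = true} ∩ badXY M q K x z) := by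
          unfold pr
          exact measureReal_biUnion_finset_le _ _
      _ = ∑ z ∈ words (l N), (p N : ℝ) * pr p (badXY M q K x z) := by
          refine Finset.sum_congr rfl fun z hz => ?_
          rw [mem_words] at hz
          have hlen := length_emb (hl N) hz
          rw [pr_inter_of_disjoint (K := {emb l N z})
            (K' := {z | z.length ≤ qb.eval (inLen q x.length)})
            (Set.finite_singleton _) hfin ?_ ?_ (hqb q K x z), pr_one, hlen]
          · rw [Set.disjoint_singleton_left]
            simp only [Set.mem_ofPred_eq]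
            rw [hx, hlen]
            omega
          · intro A A' h
            simp only [Set.mem_ofPred_eq]
            rw [h (emb l N z) rfl]
      _ = (p N : ℝ) * ∑ z ∈ words (l N), pr p (badXY M q K x z) := by rw [Finset.mul_sum]
      _ ≤ (p N : ℝ) * ((8 / 9) ^ K * 2 ^ l N) := by
          refine mul_le_mul_of_nonneg_left ?_ (p N).2.1
          refine sum_pr_le _ _ (fun y _ => measurableSet_of_loc hfin (hqb q K x y)) _ fun A => ?_
          have := card_bad M q K x (l N) (by rw [hx]; exact hN) A
          convert this
      _ = 2 ^ l N * (p N : ℝ) * (8 / 9) ^ K := by ring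
  calc pr p {A | ∃ x ∈ words n, ∃ z ∈ words (l N), A (emb l N z) = true ∧
        A ∈ badXY M q K x z} ≤
        pr p (⋃ x ∈ words n, ⋃ z ∈ words (l N), ({A : Oracle | A (emb l N z) = true} ∩
          badXY M q K x z)) := pr_mono hsub
    _ ≤ ∑ x ∈ words n, pr p (⋃ z ∈ words (l N), ({A : Oracle | A (emb l N z) = true} ∩
          badXY M q K x z)) := by
        unfold pr
        exact measureReal_biUnion_finset_le _ _
    _ ≤ ∑ _x ∈ words n, 2 ^ l N * (p N : ℝ) * (8 / 9) ^ K := Finset.sum_le_sum hx
    _ = _ := by
        rw [Finset.sum_const, card_words, nsmul_eq_mul]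
        push_cast
        ring

/-- there is no element with the right form and length `N` -/
theorem pr_empty (l : ℕ → ℕ) (hl : ∀ N, l N ≤ N) (N : ℕ) :
    pr p {A | ∀ z ∈ words (l N), A (emb l N z) = false} ≤
      Real.exp (-(2 ^ l N * (p N : ℝ))) := by
  classical
  have h1 : {A : Oracle | ∀ z ∈ words (l N), A (emb l N z) = false} =
      Full ((words (l N)).image (emb l N)) false := by
    ext A
    simp [Full]
  rw [h1, pr_full (n := N), Finset.card_image_of_injective _ (fun a b h => emb_inj h), card_words]
  · have h2 : qq p N false = 1 - p N := by simp [qq]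
    rw [h2]
    calc (1 - (p N : ℝ)) ^ 2 ^ l N ≤ Real.exp (-(p N : ℝ)) ^ 2 ^ l N := by
          refine pow_le_pow_left₀ (by linarith [(p N).2.2]) ?_ _
          have := Real.add_one_le_exp (-(p N : ℝ))
          linarith
      _ = Real.exp (-(2 ^ l N * (p N : ℝ))) := by
          rw [← Real.exp_nat_mul]
          congr 1
          push_cast
          ring
  · intro x hx
    obtain ⟨z, hz, rfl⟩ := Finset.mem_image.1 hx
    exact length_emb (hl N) (mem_words.1 hz)

/-- the probability that there are no elements with lengths in a window -/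
theorem prob_none (l : ℕ → ℕ) (hl : ∀ N, l N ≤ N) (a : ℕ) : ∀ b,
    pr p {A | ∀ N ∈ Finset.Ico a b, ∀ z ∈ words (l N), A (emb l N z) = false} ≤
    Real.exp (-∑ N ∈ Finset.Ico a b, 2 ^ l N * (p N : ℝ)) := by
  classical
  intro b
  rcases le_or_gt b a with h | h
  · rw [Finset.Ico_eq_empty (by omega)]
    simp only [Finset.sum_empty, neg_zero, Real.exp_zero]
    exact pr_le_one _
  obtain ⟨k, rfl⟩ : ∃ k, b = a + k := ⟨b - a, by omega⟩
  clear h
  induction k with
  | zero =>
    rw [Finset.Ico_eq_empty (by omega)]
    simp only [Finset.sum_empty, neg_zero, Real.exp_zero]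
    exact pr_le_one _
  | succ k ih =>
    have h1 : {A : Oracle | ∀ N ∈ Finset.Ico a (a + (k + 1)), ∀ z ∈ words (l N),
        A (emb l N z) = false} =
        {A | ∀ N ∈ Finset.Ico a (a + k), ∀ z ∈ words (l N), A (emb l N z) = false} ∩
        {A | ∀ z ∈ words (l (a + k)), A (emb l (a + k) z) = false} := by
      ext A
      simp only [Set.mem_ofPred_eq, Set.mem_inter_iff, Finset.mem_Ico]
      constructor
      · intro h
        exact ⟨fun N hN => h N ⟨hN.1, by omega⟩, fun x hx => h (a + k) ⟨by omega, by omega⟩ x hx⟩
      · rintro ⟨h2, h3⟩ N hN y hy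
        by_cases hNb : N = a + k
        · subst hNb
          exact h3 y hy
        · exact h2 N ⟨hN.1, by omega⟩ y hy
    rw [h1, pr_inter_of_disjoint (K := {z : List Bool | z.length < a + k})
      (K' := ((words (a + k) : Finset (List Bool)) : Set (List Bool))) ?_
      (Finset.finite_toSet _) ?_ ?_ ?_]
    · rw [← add_assoc, Finset.sum_Ico_succ_top (by omega), neg_add, Real.exp_add]
      exact mul_le_mul ih (pr_empty l hl _) (pr_nonneg _) (Real.exp_pos _).le
    · exact (List.finite_length_le Bool (a + k)).subset
        fun z hz => (show z.length ≤ a + k from le_of_lt hz)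
    · rw [Set.disjoint_left]
      intro z hz hz'
      rw [Finset.mem_coe, mem_words] at hz'
      simp only [Set.mem_ofPred_eq] at hz
      omega
    · intro A A' h
      simp only [Set.mem_ofPred_eq]
      refine forall₂_congr fun N hN => forall₂_congr fun y hy => ?_
      rw [Finset.mem_Ico] at hN
      rw [mem_words] at hy
      rw [h (emb l N y) (by
        simp only [Set.mem_ofPred_eq]
        rw [length_emb (hl N) hy]
        omega)]
    · intro A A' h
      simp only [Set.mem_ofPred_eq]
      refine forall₂_congr fun y hy => ?_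
      rw [mem_words] at hy
      rw [h (emb l (a + k) y) (by
        rw [Finset.mem_coe, mem_words]
        exact length_emb (hl _) hy)]

end Pool.Agent.H530R3.Am
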